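import Mathlib

/-!
# `P₄`-free relations split (Seinsche), in a set-theoretic form
-/

set_option autoImplicit false

namespace Pool.Agent.X72.LinP4

variable {α : Type*} [DecidableEq α]

/-- No induced path on four elements of `S` (for the symmetric relation `R`). -/
def NoPath (R : α → α → Prop) (S : Finset α) : Prop :=
  ∀ a ∈ S, ∀ b ∈ S, ∀ c ∈ S, ∀ d ∈ S, R a b → R b c → R c d → ¬ R a c → ¬ R a d → ¬ R b d → False

/-- `S` is the disjoint union of the nonempty sets `A`, `B`. -/
def Parts (S A B : Finset α) : Prop := A.Nonempty ∧ B.Nonempty ∧ Disjoint A B ∧ A ∪ B = S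

theorem Parts.symm {S A B : Finset α} (h : Parts S A B) : Parts S B A :=
  ⟨h.2.1, h.1, h.2.2.1.symm, by rw [Finset.union_comm]; exact h.2.2.2⟩

def Full (R : α → α → Prop) (A B : Finset α) : Prop := ∀ a ∈ A, ∀ b ∈ B, R a b

def Splits (R : α → α → Prop) (S : Finset α) : Prop :=
  ∃ A B, Parts S A B ∧ (Full R A B ∨ Full (fun a b => ¬ R a b) A B)

theorem step_aux (R : α → α → Prop) (symm : ∀ a b, R a b → R b a) {v : α} {S A B : Finset α}
    (hv : v ∉ S) (hP : NoPath R (insert v S)) (hAB : Parts S A B)
    (hn : Full (fun a b => ¬ R a b) A B) (hb : ∃ b ∈ B, R v b) (hw : ∃ w ∈ A, ¬ R v w) :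
    Splits R (insert v S) := by
  classical
  obtain ⟨hA, hB, hd, hu⟩ := hAB
  obtain ⟨b, hbB, hvb⟩ := hb
  obtain ⟨w, hwA, hvw⟩ := hw
  have hAS : ∀ a ∈ A, a ∈ S := fun a ha => by rw [← hu]; exact Finset.mem_union_left _ ha
  have hBS : ∀ a ∈ B, a ∈ S := fun a ha => by rw [← hu]; exact Finset.mem_union_right _ ha
  set A1 := A.filter (fun a => ¬ R v a) with hA1
  have hsub : A1 ⊆ insert v S := fun a ha =>
    Finset.mem_insert_of_mem (hAS a (Finset.mem_filter.1 ha).1)
  have hvA1 : v ∉ A1 := fun h => hv (hAS v (Finset.mem_filter.1 h).1)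
  refine ⟨A1, insert v S \ A1, ⟨⟨w, Finset.mem_filter.2 ⟨hwA, hvw⟩⟩,
    ⟨v, Finset.mem_sdiff.2 ⟨Finset.mem_insert_self _ _, hvA1⟩⟩, Finset.disjoint_sdiff,
    Finset.union_sdiff_of_subset hsub⟩, Or.inr ?_⟩
  intro p hp z hz
  obtain ⟨hpA, hvp⟩ := Finset.mem_filter.1 hp
  obtain ⟨hz1, hz2⟩ := Finset.mem_sdiff.1 hz
  rcases Finset.mem_insert.1 hz1 with rfl | hzS
  · exact fun h => hvp (symm _ _ h)
  · rw [← hu] at hzS
    rcases Finset.mem_union.1 hzS with hzA | hzB
    · have hvz : R v z := by
        by_contra h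
        exact hz2 (Finset.mem_filter.2 ⟨hzA, h⟩)
      intro hpz
      exact hP p (Finset.mem_insert_of_mem (hAS p hpA)) z (Finset.mem_insert_of_mem (hAS z hzA))
        v (Finset.mem_insert_self _ _) b (Finset.mem_insert_of_mem (hBS b hbB)) hpz
        (symm _ _ hvz) hvb (fun h => hvp (symm _ _ h)) (hn p hpA b hbB) (hn z hzA b hbB)
    · exact hn p hpA z hzB

theorem step (R : α → α → Prop) (symm : ∀ a b, R a b → R b a) {v : α} {S A B : Finset α}
    (hv : v ∉ S) (hP : NoPath R (insert v S)) (hAB : Parts S A B)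
    (hn : Full (fun a b => ¬ R a b) A B) : Splits R (insert v S) := by
  classical
  have hn' : Full (fun a b => ¬ R a b) B A := fun b hb a ha h => hn a ha b hb (symm _ _ h)
  obtain ⟨hA, hB, hd, hu⟩ := id hAB
  have hAS : ∀ a ∈ A, a ∈ S := fun a ha => by rw [← hu]; exact Finset.mem_union_left _ ha
  have hBS : ∀ a ∈ B, a ∈ S := fun a ha => by rw [← hu]; exact Finset.mem_union_right _ ha
  by_cases h1 : ∃ a ∈ A, R v a
  · by_cases h2 : ∃ b ∈ B, R v b
    · by_cases h3 : ∃ w ∈ A, ¬ R v w
      · exact step_aux R symm hv hP hAB hn h2 h3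
      · by_cases h4 : ∃ w ∈ B, ¬ R v w
        · exact step_aux R symm hv hP hAB.symm hn' h1 h4
        · push Not at h3 h4
          refine ⟨{v}, S, ⟨Finset.singleton_nonempty v, ⟨_, hAS _ hA.choose_spec⟩,
            Finset.disjoint_singleton_left.2 hv, ?_⟩, Or.inl ?_⟩
          · rw [Finset.insert_eq]
          · intro a ha b hb
            rw [Finset.mem_singleton.1 ha]
            rw [← hu] at hb
            rcases Finset.mem_union.1 hb with hb | hb
            · exact h3 b hb
            · exact h4 b hb
    · push Not at h2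
      refine ⟨insert v A, B, ⟨Finset.insert_nonempty _ _, hB, ?_, ?_⟩, Or.inr ?_⟩
      · rw [Finset.disjoint_insert_left]
        exact ⟨fun h => hv (hBS v h), hd⟩
      · rw [Finset.insert_union, hu]
      · intro a ha b hb
        rcases Finset.mem_insert.1 ha with rfl | ha
        · exact h2 b hb
        · exact hn a ha b hb
  · push Not at h1
    refine ⟨A, insert v B, ⟨hA, Finset.insert_nonempty _ _, ?_, ?_⟩, Or.inr ?_⟩
    · rw [Finset.disjoint_insert_right]
      exact ⟨fun h => hv (hAS v h), hd⟩
    · rw [Finset.union_insert, hu]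
    · intro a ha b hb
      rcases Finset.mem_insert.1 hb with rfl | hb
      · exact fun h => h1 a ha (symm _ _ h)
      · exact hn a ha b hb

/-- A finite set with at least two elements and without induced path on four elements splits
into two nonempty parts which are completely related or completely unrelated. -/
theorem split (R : α → α → Prop) (symm : ∀ a b, R a b → R b a) (S : Finset α)
    (hP : NoPath R S) (h2 : 2 ≤ S.card) : Splits R S := by
  classical
  induction S using Finset.induction_on with
  | empty => simp at h2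
  | @insert v S hv ih =>
    by_cases h1 : 2 ≤ S.card
    · have hP' : NoPath R S := fun a ha b hb c hc d hd =>
        hP a (Finset.mem_insert_of_mem ha) b (Finset.mem_insert_of_mem hb)
          c (Finset.mem_insert_of_mem hc) d (Finset.mem_insert_of_mem hd)
      obtain ⟨A, B, hAB, h | h⟩ := ih hP' h1
      · have hQ : NoPath (fun a b => ¬ R a b) (insert v S) := by
          intro a ha b hb c hc d hd hab hbc hcd hac had hbd
          simp only [not_not] at hac had hbd
          exact hP c hc a ha d hd b hb (symm _ _ hac) had (symm _ _ hbd) hcd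
            (fun h => hbc (symm _ _ h)) hab
        have hh : Full (fun a b => ¬ ¬ R a b) A B := fun a ha b hb hc => hc (h a ha b hb)
        obtain ⟨A', B', hp, h | h⟩ := step (fun a b => ¬ R a b)
          (fun a b hab hba => hab (symm _ _ hba)) hv hQ hAB hh
        · exact ⟨A', B', hp, Or.inr h⟩
        · exact ⟨A', B', hp, Or.inl (fun a ha b hb => not_not.1 (h a ha b hb))⟩
      · exact step R symm hv hP hAB h
    · have hc : S.card = 1 := by
        rw [Finset.card_insert_of_notMem hv] at h2
        omega
      obtain ⟨w, rfl⟩ := Finset.card_eq_one.1 hc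
      have hvw : v ≠ w := fun h => hv (by simp [h])
      refine ⟨{v}, {w}, ⟨Finset.singleton_nonempty _, Finset.singleton_nonempty _,
        by simpa using hvw, by rw [← Finset.insert_eq]⟩, ?_⟩
      by_cases h : R v w
      · left; intro a ha b hb
        rw [Finset.mem_singleton.1 ha, Finset.mem_singleton.1 hb]; exact h
      · right; intro a ha b hb
        rw [Finset.mem_singleton.1 ha, Finset.mem_singleton.1 hb]; exact h

end Pool.Agent.X72.LinP4
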