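import Pool.Agent.X72.LinP4.Defs
import Pool.Agent.X72.LinP4.Split

set_option autoImplicit false

namespace Pool.Agent.X72.LinP4

variable {V : Type*} [DecidableEq V]

structure Good (r : ℕ) (E : Finset (Finset V)) : Prop where
  unif : ∀ e ∈ E, e.card = r
  lin : ∀ e ∈ E, ∀ f ∈ E, e ≠ f → (e ∩ f).card ≤ 1
  noP : NoPath (fun e f : Finset V => ¬ Disjoint e f) E

theorem Good.mono {r : ℕ} {E F : Finset (Finset V)} (h : Good r E) (hF : F ⊆ E) : Good r F :=
  ⟨fun e he => h.unif e (hF he), fun e he f hf => h.lin e (hF he) f (hF hf),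
    fun a ha b hb c hc d hd => h.noP a (hF ha) b (hF hb) c (hF hc) d (hF hd)⟩

/-- number of hyperedges of `S` through `y` -/
def deg (S : Finset (Finset V)) (y : V) : ℕ := (S.filter (fun f => y ∈ f)).card

/-- the covered vertices -/
def VV (E : Finset (Finset V)) : Finset V := E.biUnion id

theorem mem_VV {E : Finset (Finset V)} {y : V} : y ∈ VV E ↔ ∃ e ∈ E, y ∈ e := by
  simp [VV]

theorem subset_VV {E : Finset (Finset V)} {e : Finset V} (he : e ∈ E) : e ⊆ VV E :=
  fun _ hy => mem_VV.2 ⟨e, he, hy⟩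

theorem sum_deg (S : Finset (Finset V)) (W : Finset V) :
    ∑ y ∈ W, deg S y = ∑ f ∈ S, (W ∩ f).card := by
  unfold deg
  simp_rw [Finset.card_filter]
  rw [Finset.sum_comm]
  refine Finset.sum_congr rfl fun f _ => ?_
  rw [← Finset.card_filter]
  rfl

theorem deg_union {A B : Finset (Finset V)} (h : Disjoint A B) (y : V) :
    deg (A ∪ B) y = deg A y + deg B y := by
  unfold deg
  rw [Finset.filter_union, Finset.card_union_of_disjoint (Finset.disjoint_filter_filter h)]

variable {r : ℕ} {E : Finset (Finset V)}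

theorem Good.inter_one (h : Good r E) {e f : Finset V} (he : e ∈ E) (hf : f ∈ E) (hne : e ≠ f)
    (hd : ¬ Disjoint e f) : (e ∩ f).card = 1 := by
  have h1 := h.lin e he f hf hne
  have h2 : 0 < (e ∩ f).card := Finset.card_pos.2 (Finset.not_disjoint_iff_nonempty_inter.1 hd)
  omega

/-- If all members of `S` are different from `e` and meet `e`, then the degrees in `S` of the
vertices of `e` sum to `|S|`. -/
theorem Good.cross (h : Good r E) {e : Finset V} (he : e ∈ E) {S : Finset (Finset V)}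
    (hS : S ⊆ E) (h1 : ∀ f ∈ S, f ≠ e ∧ ¬ Disjoint e f) : ∑ y ∈ e, deg S y = S.card := by
  rw [sum_deg, Finset.card_eq_sum_ones]
  exact Finset.sum_congr rfl fun f hf => h.inter_one he (hS hf) (h1 f hf).1.symm (h1 f hf).2

theorem Good.sum_VV (h : Good r E) : ∑ y ∈ VV E, deg E y = r * E.card := by
  rw [sum_deg, Finset.sum_congr rfl (g := fun _ => r)]
  · simp [mul_comm]
  · intro f hf
    rw [Finset.inter_eq_right.2 (subset_VV hf), h.unif f hf]

theorem Good.eq_of_two (h : Good r E) {e f : Finset V} (he : e ∈ E) (hf : f ∈ E) {x y : V}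
    (hxy : x ≠ y) (hx : x ∈ e) (hy : y ∈ e) (hx' : x ∈ f) (hy' : y ∈ f) : e = f := by
  by_contra hne
  have h1 := h.lin e he f hf hne
  have h2 : ({x, y} : Finset V) ⊆ e ∩ f := by
    intro z hz
    rcases Finset.mem_insert.1 hz with rfl | hz
    · exact Finset.mem_inter.2 ⟨hx, hx'⟩
    · rw [Finset.mem_singleton.1 hz]; exact Finset.mem_inter.2 ⟨hy, hy'⟩
  have h3 := Finset.card_le_card h2
  rw [Finset.card_pair hxy] at h3
  omega

/-- hyperedges through `x` -/
def star (E : Finset (Finset V)) (x : V) : Finset (Finset V) := E.filter (fun f => x ∈ f)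

theorem card_star (E : Finset (Finset V)) (x : V) : (star E x).card = deg E x := rfl

theorem mem_star {x : V} {f : Finset V} : f ∈ star E x ↔ f ∈ E ∧ x ∈ f := by simp [star]

theorem Good.deg_star_le (h : Good r E) {x y : V} (hxy : x ≠ y) : deg (star E x) y ≤ 1 := by
  unfold deg
  rw [Finset.card_le_one]
  intro a ha b hb
  simp only [Finset.mem_filter, mem_star] at ha hb
  exact h.eq_of_two ha.1.1 hb.1.1 hxy ha.1.2 ha.2 hb.1.2 hb.2

theorem Good.hits_eq (h : Good r E) {x : V} {b : Finset V} (hb : b ∈ E) (hx : x ∉ b) :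
    ((star E x).filter (fun f => ¬ Disjoint b f)).card = ∑ y ∈ b, deg (star E x) y := by
  rw [sum_deg, Finset.card_filter]
  refine Finset.sum_congr rfl fun f hf => ?_
  rw [mem_star] at hf
  by_cases hd : Disjoint b f
  · rw [if_neg (not_not.2 hd), Finset.disjoint_iff_inter_eq_empty.1 hd]; rfl
  · rw [if_pos hd, h.inter_one hb hf.1 (fun hh => hx (hh ▸ hf.2)) hd]

theorem Good.hits_le (h : Good r E) {x : V} {b : Finset V} (hb : b ∈ E) (hx : x ∉ b) :
    ((star E x).filter (fun f => ¬ Disjoint b f)).card ≤ r := by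
  rw [h.hits_eq hb hx, ← h.unif b hb, Finset.card_eq_sum_ones]
  exact Finset.sum_le_sum fun y hy => h.deg_star_le (fun hh => hx (hh ▸ hy))

/-- the other vertices on the hyperedges through `x` -/
def nbr (E : Finset (Finset V)) (x : V) : Finset V := (star E x).biUnion (fun f => f.erase x)

theorem mem_nbr {x y : V} : y ∈ nbr E x ↔ y ≠ x ∧ ∃ f ∈ E, x ∈ f ∧ y ∈ f := by
  simp only [nbr, Finset.mem_biUnion, mem_star, Finset.mem_erase]
  constructor
  · rintro ⟨f, ⟨hf, hx⟩, hy, hyf⟩; exact ⟨hy, f, hf, hx, hyf⟩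
  · rintro ⟨hy, f, hf, hx, hyf⟩; exact ⟨f, ⟨hf, hx⟩, hy, hyf⟩

theorem Good.card_nbr (h : Good r E) (x : V) : (nbr E x).card = deg E x * (r - 1) := by
  unfold nbr
  rw [Finset.card_biUnion]
  · rw [Finset.sum_congr rfl (g := fun _ => r - 1)]
    · rw [Finset.sum_const, card_star, smul_eq_mul]
    · intro f hf
      rw [mem_star] at hf
      rw [Finset.card_erase_of_mem hf.2, h.unif f hf.1]
  · intro a ha b hb hab
    rw [Finset.mem_coe, mem_star] at ha hb
    show Disjoint _ _
    rw [Finset.disjoint_left]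
    intro y hy hy'
    rw [Finset.mem_erase] at hy hy'
    exact hab (h.eq_of_two ha.1 hb.1 hy.1.symm ha.2 hy.2 hb.2 hy'.2)

theorem nbr_subset (x : V) : nbr E x ⊆ (VV E).erase x := by
  intro y hy
  obtain ⟨h1, f, hf, _, hyf⟩ := mem_nbr.1 hy
  exact Finset.mem_erase.2 ⟨h1, mem_VV.2 ⟨f, hf, hyf⟩⟩

theorem Good.one_add_le (h : Good r E) {x : V} (hx : x ∈ VV E) :
    1 + deg E x * (r - 1) ≤ (VV E).card := by
  have h1 := Finset.card_le_card (nbr_subset (E := E) x)
  rw [h.card_nbr, Finset.card_erase_of_mem hx] at h1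
  have : 0 < (VV E).card := Finset.card_pos.2 ⟨x, hx⟩
  omega

theorem Good.adj_of_eq (h : Good r E) {x : V} (hx : x ∈ VV E)
    (he : (VV E).card = 1 + deg E x * (r - 1)) {y : V} (hy : y ∈ VV E) (hyx : y ≠ x) :
    ∃ f ∈ E, x ∈ f ∧ y ∈ f := by
  have h1 : nbr E x = (VV E).erase x := by
    apply Finset.eq_of_subset_of_card_le (nbr_subset x)
    rw [h.card_nbr, Finset.card_erase_of_mem hx]
    omega
  have h2 : y ∈ nbr E x := by rw [h1]; exact Finset.mem_erase.2 ⟨hyx, hy⟩
  exact (mem_nbr.1 h2).2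

/-- If every vertex of `b` is adjacent to `x`, then exactly `r` hyperedges through `x` meet `b`. -/
theorem Good.hits_eq_r (h : Good r E) {x : V} {b : Finset V} (hb : b ∈ E) (hx : x ∉ b)
    (hadj : ∀ y ∈ b, ∃ f ∈ E, x ∈ f ∧ y ∈ f) :
    ((star E x).filter (fun f => ¬ Disjoint b f)).card = r := by
  rw [h.hits_eq hb hx, ← h.unif b hb, Finset.card_eq_sum_ones]
  refine Finset.sum_congr rfl fun y hy => ?_
  have hxy : x ≠ y := fun hh => hx (hh ▸ hy)
  have h1 := h.deg_star_le hxy
  obtain ⟨f, hf, hxf, hyf⟩ := hadj y hy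
  have h2 : 0 < deg (star E x) y := Finset.card_pos.2 ⟨f, by simp [mem_star, hf, hxf, hyf]⟩
  omega

/-- pair counting -/
theorem Good.pairs (h : Good r E) {S : Finset (Finset V)} (hS : S ⊆ E) {W : Finset V}
    (hW : ∀ e ∈ S, e ⊆ W) : S.card * (r * r - r) ≤ W.card * W.card - W.card ∧
      (S.card * (r * r - r) = W.card * W.card - W.card →
        ∀ x ∈ W, ∀ y ∈ W, x ≠ y → ∃ e ∈ S, x ∈ e ∧ y ∈ e) := by
  have hc : (S.biUnion Finset.offDiag).card = S.card * (r * r - r) := by
    rw [Finset.card_biUnion]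
    · rw [Finset.sum_congr rfl (g := fun _ => r * r - r)]
      · rw [Finset.sum_const, smul_eq_mul]
      · intro f hf
        rw [Finset.offDiag_card, h.unif f (hS hf)]
    · intro a ha b hb hab
      show Disjoint _ _
      rw [Finset.disjoint_left]
      rintro ⟨x, y⟩ hy hy'
      rw [Finset.mem_offDiag] at hy hy'
      exact hab (h.eq_of_two (hS ha) (hS hb) hy.2.2 hy.1 hy.2.1 hy'.1 hy'.2.1)
  have hsub : S.biUnion Finset.offDiag ⊆ W.offDiag := by
    rintro ⟨x, y⟩ hxy
    rw [Finset.mem_biUnion] at hxy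
    obtain ⟨e, he, hxy⟩ := hxy
    rw [Finset.mem_offDiag] at hxy ⊢
    exact ⟨hW e he hxy.1, hW e he hxy.2.1, hxy.2.2⟩
  constructor
  · rw [← hc, ← Finset.offDiag_card]
    exact Finset.card_le_card hsub
  · intro heq x hx y hy hxy
    have h1 : S.biUnion Finset.offDiag = W.offDiag := by
      apply Finset.eq_of_subset_of_card_le hsub
      rw [hc, heq, Finset.offDiag_card]
    have h2 : (x, y) ∈ S.biUnion Finset.offDiag := by
      rw [h1, Finset.mem_offDiag]; exact ⟨hx, hy, hxy⟩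
    rw [Finset.mem_biUnion] at h2
    obtain ⟨e, he, hxy'⟩ := h2
    rw [Finset.mem_offDiag] at hxy'
    exact ⟨e, he, hxy'.1, hxy'.2.1⟩

/-- hyperedges meeting two disjoint hyperedges -/
theorem Good.two_disjoint (h : Good r E) {S : Finset (Finset V)} (hS : S ⊆ E) {a b : Finset V}
    (ha : a ∈ E) (hb : b ∈ E) (hab : Disjoint a b)
    (h1 : ∀ f ∈ S, ¬ Disjoint a f ∧ ¬ Disjoint b f) : S.card ≤ r * r := by
  classical
  rcases S.eq_empty_or_nonempty with rfl | hSn
  · simp
  have : Nonempty (V × V) := by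
    obtain ⟨f, hf⟩ := hSn
    obtain ⟨x, hx⟩ := Finset.not_disjoint_iff_nonempty_inter.1 (h1 f hf).1
    exact ⟨(x, x)⟩
  have h2 : ∀ f ∈ S, ∃ p : V × V, p ∈ a ×ˢ b ∧ p.1 ∈ f ∧ p.2 ∈ f := by
    intro f hf
    obtain ⟨x, hx⟩ := Finset.not_disjoint_iff_nonempty_inter.1 (h1 f hf).1
    obtain ⟨y, hy⟩ := Finset.not_disjoint_iff_nonempty_inter.1 (h1 f hf).2
    rw [Finset.mem_inter] at hx hy
    exact ⟨(x, y), Finset.mem_product.2 ⟨hx.1, hy.1⟩, hx.2, hy.2⟩
  choose! g hg using h2
  calc S.card ≤ (a ×ˢ b).card := by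
        apply Finset.card_le_card_of_injOn g
        · intro f hf; exact (hg f hf).1
        · intro f hf f' hf' hff
          have p1 := hg f hf
          have p2 := hg f' hf'
          rw [← hff] at p2
          have hne : (g f).1 ≠ (g f).2 := by
            intro hh
            have q := Finset.mem_product.1 p1.1
            rw [hh] at q
            exact Finset.disjoint_left.1 hab q.1 q.2
          exact h.eq_of_two (hS hf) (hS hf') hne p1.2.1 p1.2.2 p2.2.1 p2.2.2
    _ = r * r := by rw [Finset.card_product, h.unif a ha, h.unif b hb]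

end Pool.Agent.X72.LinP4
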