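import Pool.Agent.X72.LinP4.Cls

set_option autoImplicit false

namespace Pool.Agent.X72.LinP4

variable {V : Type*} [DecidableEq V] {r : ℕ} {E : Finset (Finset V)}

/-- one half of the variance identity -/
theorem Good.half (h : Good r E) {A B : Finset (Finset V)} (hA : A ⊆ E) (hB : B ⊆ E)
    (hd : Disjoint A B) (hF : Full (fun e f : Finset V => ¬ Disjoint e f) A B) :
    ∑ e ∈ A, ∑ y ∈ e, ((r : ℤ) * deg B y - B.card) ^ 2 =
      (r : ℤ) ^ 2 * (∑ y ∈ VV E, (deg A y : ℤ) * (deg B y : ℤ) ^ 2) - r * A.card * B.card ^ 2 := by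
  have h1 : ∀ e ∈ A, ∑ y ∈ e, ((r : ℤ) * deg B y - B.card) ^ 2 =
      (r : ℤ) ^ 2 * (∑ y ∈ e, (deg B y : ℤ) ^ 2) - r * B.card ^ 2 := by
    intro e he
    have hc : (∑ y ∈ e, (deg B y : ℤ)) = B.card := by
      have := h.cross (hA he) hB
        (fun f hf => ⟨fun hh => Finset.disjoint_left.1 hd he (hh ▸ hf), hF e he f hf⟩)
      exact_mod_cast this
    have h2 : ∀ y ∈ e, ((r : ℤ) * deg B y - B.card) ^ 2 =
        (r : ℤ) ^ 2 * (deg B y : ℤ) ^ 2 - 2 * r * B.card * deg B y + B.card ^ 2 := by
      intro y _; ring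
    rw [Finset.sum_congr rfl h2, Finset.sum_add_distrib, Finset.sum_sub_distrib,
      ← Finset.mul_sum, ← Finset.mul_sum, hc, Finset.sum_const, nsmul_eq_mul,
      h.unif e (hA he)]
    ring
  rw [Finset.sum_congr rfl h1, Finset.sum_sub_distrib, ← Finset.mul_sum,
    sum_flags A (VV E) (fun e he => subset_VV (hA he)), Finset.sum_const, nsmul_eq_mul]
  ring

theorem Good.cross_sum (h : Good r E) {A B : Finset (Finset V)} (hA : A ⊆ E) (hB : B ⊆ E)
    (hd : Disjoint A B) (hF : Full (fun e f : Finset V => ¬ Disjoint e f) A B) :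
    ∑ y ∈ VV E, (deg A y : ℤ) * (deg B y : ℤ) = A.card * B.card := by
  rw [← sum_flags A (VV E) (fun e he => subset_VV (hA he))]
  have h1 : ∀ e ∈ A, ∑ y ∈ e, (deg B y : ℤ) = B.card := by
    intro e he
    have := h.cross (hA he) hB
      (fun f hf => ⟨fun hh => Finset.disjoint_left.1 hd he (hh ▸ hf), hF e he f hf⟩)
    exact_mod_cast this
  rw [Finset.sum_congr rfl h1, Finset.sum_const, nsmul_eq_mul]

/-- The number of hyperedges is at most `r D`, with equality only if there are `r²` vertices. -/
theorem Good.alpha (h : Good r E) (hr : 3 ≤ r) {A B : Finset (Finset V)} (hAB : Parts E A B)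
    (hF : Full (fun e f : Finset V => ¬ Disjoint e f) A B) {D : ℕ}
    (hD : ∀ y ∈ VV E, deg E y ≤ D) :
    E.card ≤ r * D ∧ (E.card = r * D → (VV E).card = r * r) := by
  obtain ⟨hA0, hB0, hd, hu⟩ := hAB
  have hA : A ⊆ E := by rw [← hu]; exact Finset.subset_union_left
  have hB : B ⊆ E := by rw [← hu]; exact Finset.subset_union_right
  have hF' : Full (fun e f : Finset V => ¬ Disjoint e f) B A :=
    fun b hb a ha hh => hF a ha b hb hh.symm
  have e1 := h.half hA hB hd hF
  have e2 := h.half hB hA hd.symm hF'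
  have e3 := h.cross_sum hA hB hd hF
  have hm : E.card = A.card + B.card := by
    rw [← hu, Finset.card_union_of_disjoint hd]
  have hdeg : ∀ y, deg E y = deg A y + deg B y := by
    intro y; rw [← hu, deg_union hd]
  have s1 : 0 ≤ ∑ e ∈ A, ∑ y ∈ e, ((r : ℤ) * deg B y - B.card) ^ 2 :=
    Finset.sum_nonneg fun e _ => Finset.sum_nonneg fun y _ => sq_nonneg _
  have s2 : 0 ≤ ∑ e ∈ B, ∑ y ∈ e, ((r : ℤ) * deg A y - A.card) ^ 2 :=
    Finset.sum_nonneg fun e _ => Finset.sum_nonneg fun y _ => sq_nonneg _
  have q : (∑ y ∈ VV E, (deg A y : ℤ) * (deg B y : ℤ) ^ 2) +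
      (∑ y ∈ VV E, (deg B y : ℤ) * (deg A y : ℤ) ^ 2) ≤ D * (A.card * B.card) := by
    rw [← e3, Finset.mul_sum, ← Finset.sum_add_distrib]
    refine Finset.sum_le_sum fun y hy => ?_
    have h1 : ((deg A y : ℤ) + deg B y) ≤ D := by
      have := hD y hy
      rw [hdeg] at this
      exact_mod_cast this
    have h2 : (0 : ℤ) ≤ (deg A y : ℤ) * deg B y := by positivity
    nlinarith
  have ha : (0 : ℤ) < A.card := by exact_mod_cast Finset.card_pos.2 hA0
  have hb : (0 : ℤ) < B.card := by exact_mod_cast Finset.card_pos.2 hB0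
  have hr0 : (0 : ℤ) < r := by exact_mod_cast (by omega : 0 < r)
  have tot : (∑ e ∈ A, ∑ y ∈ e, ((r : ℤ) * deg B y - B.card) ^ 2) +
      (∑ e ∈ B, ∑ y ∈ e, ((r : ℤ) * deg A y - A.card) ^ 2) ≤
      (r * A.card * B.card) * (r * D - (A.card + B.card)) := by
    rw [e1, e2]
    nlinarith [mul_pos hr0 hr0]
  have pos : (0 : ℤ) < r * A.card * B.card := by positivity
  have main : (0 : ℤ) ≤ r * D - (A.card + B.card) := by
    by_contra hc
    push Not at hc
    nlinarith
  constructor
  · rw [hm]; zify; linarith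
  · intro heq
    have hz : (r : ℤ) * D - (A.card + B.card) = 0 := by
      rw [hm] at heq; zify at heq; linarith
    rw [hz, mul_zero] at tot
    have t1 : ∑ e ∈ A, ∑ y ∈ e, ((r : ℤ) * deg B y - B.card) ^ 2 = 0 := by linarith
    have t2 : ∑ e ∈ B, ∑ y ∈ e, ((r : ℤ) * deg A y - A.card) ^ 2 = 0 := by linarith
    have u1 : ∀ e ∈ A, ∀ y ∈ e, (r : ℤ) * deg B y = B.card := by
      intro e he y hy
      have := (Finset.sum_eq_zero_iff_of_nonneg
        (fun e _ => Finset.sum_nonneg fun y _ => sq_nonneg _)).1 t1 e he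
      have := (Finset.sum_eq_zero_iff_of_nonneg (fun y _ => sq_nonneg _)).1 this y hy
      have := pow_eq_zero_iff (two_ne_zero) |>.1 this
      linarith
    have u2 : ∀ e ∈ B, ∀ y ∈ e, (r : ℤ) * deg A y = A.card := by
      intro e he y hy
      have := (Finset.sum_eq_zero_iff_of_nonneg
        (fun e _ => Finset.sum_nonneg fun y _ => sq_nonneg _)).1 t2 e he
      have := (Finset.sum_eq_zero_iff_of_nonneg (fun y _ => sq_nonneg _)).1 this y hy
      have := pow_eq_zero_iff (two_ne_zero) |>.1 this
      linarith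
    have exd : ∀ (S : Finset (Finset V)) (y : V), (0 : ℤ) < r * deg S y → ∃ e ∈ S, y ∈ e := by
      intro S y hp
      have : deg S y ≠ 0 := by
        rintro h0; rw [h0] at hp; simp at hp
      obtain ⟨f, hf⟩ := Finset.card_pos.1 (Nat.pos_of_ne_zero this)
      rw [Finset.mem_filter] at hf
      exact ⟨f, hf.1, hf.2⟩
    have all : ∀ y ∈ VV E, r * deg E y = E.card := by
      intro y hy
      obtain ⟨e, he, hye⟩ := mem_VV.1 hy
      rw [← hu] at he
      have both : (r : ℤ) * deg B y = B.card ∧ (r : ℤ) * deg A y = A.card := by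
        rcases Finset.mem_union.1 he with he | he
        · have p := u1 e he y hye
          obtain ⟨f, hf, hyf⟩ := exd B y (by rw [p]; exact hb)
          exact ⟨p, u2 f hf y hyf⟩
        · have p := u2 e he y hye
          obtain ⟨f, hf, hyf⟩ := exd A y (by rw [p]; exact ha)
          exact ⟨u1 f hf y hyf, p⟩
      rw [hdeg, hm]
      zify
      linarith [both.1, both.2]
    have hs : r * ∑ y ∈ VV E, deg E y = (VV E).card * E.card := by
      rw [Finset.mul_sum, Finset.sum_congr rfl all, Finset.sum_const, smul_eq_mul]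
    rw [h.sum_VV] at hs
    have hmp : 0 < E.card := by
      rw [hm]; have := Finset.card_pos.2 hA0; omega
    have : (VV E).card * E.card = (r * r) * E.card := by rw [← hs]; ring
    exact Nat.eq_of_mul_eq_mul_right hmp this

theorem exists_other {A B : Finset (Finset V)} (hAB : Parts E A B)
    (hF : Full (fun e f : Finset V => ¬ Disjoint e f) A B) {e : Finset V} (he : e ∈ E) :
    ∃ f ∈ E, f ∉ cls E e := by
  by_contra hc
  push Not at hc
  have h1 : cls E e = E := Finset.Subset.antisymm (cls_sub e) (fun f hf => hc f hf)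
  rw [← h1] at hAB
  have : Parts (cls E e) A B := by
    rw [h1] at hAB; rw [h1]; exact hAB
  exact not_full he this hF

/-- Case without universal hyperedges. -/
theorem Good.case0 (h : Good r E) (hr : 3 ≤ r) {A B : Finset (Finset V)} (hAB : Parts E A B)
    (hF : Full (fun e f : Finset V => ¬ Disjoint e f) A B)
    (hU : ∀ e ∈ E, ∃ f ∈ E, f ≠ e ∧ Disjoint e f) (hv : r * r < (VV E).card) :
    r * E.card + r ≤ (r + 1) * (VV E).card := by
  have hne : (VV E).Nonempty := Finset.card_pos.1 (by omega)
  obtain ⟨x, hx, hmax⟩ := Finset.exists_max_image (VV E) (deg E) hne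
  obtain ⟨D, hDx⟩ : ∃ D, deg E x = D := ⟨_, rfl⟩
  have hD : ∀ y ∈ VV E, deg E y ≤ D := fun y hy => by rw [← hDx]; exact hmax y hy
  obtain ⟨al1, al2⟩ := h.alpha hr hAB hF hD
  have hm1 : E.card + 1 ≤ r * D := by
    rcases Nat.lt_or_ge E.card (r * D) with h1 | h1
    · exact h1
    · have := al2 (le_antisymm al1 h1); omega
  have c2 : ∀ e ∈ E, 2 ≤ (cls E e).card := by
    intro e he
    obtain ⟨f, hf, hfe, hd⟩ := hU e he
    have h1 : f ∈ cls E e := cls_closed (self_mem he) hf hd
    have h2 : ({e, f} : Finset (Finset V)) ⊆ cls E e := by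
      intro g hg
      rcases Finset.mem_insert.1 hg with rfl | hg
      · exact self_mem he
      · rw [Finset.mem_singleton.1 hg]; exact h1
    have h3 := Finset.card_le_card h2
    rwa [Finset.card_pair hfe.symm] at h3
  -- D ≤ 2r
  have hD2 : D ≤ 2 * r := by
    obtain ⟨e, he, hxe⟩ := mem_VV.1 hx
    obtain ⟨f, hf, hfc⟩ := exists_other hAB hF he
    have h1 := h.hdeg_le he (c2 e he) x
    have h2 := h.hdeg_le hf (c2 f hf) x
    have h3 : cls E e ⊆ E \ cls E f := by
      intro g hg
      refine Finset.mem_sdiff.2 ⟨cls_sub e hg, fun hgf => hfc ?_⟩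
      have := cls_eq hg
      rw [← this, cls_eq hgf]
      exact self_mem hf
    have h4 := deg_mono h3 x
    have h5 := deg_cls_add (E := E) e x
    omega
  have hv1 := h.one_add_le hx
  rw [hDx] at hv1
  obtain ⟨s, rfl⟩ : ∃ s, r = s + 1 := ⟨r - 1, by omega⟩
  simp only [Nat.add_sub_cancel] at hv1
  obtain ⟨v, hvv⟩ : ∃ v, (VV E).card = v := ⟨_, rfl⟩
  obtain ⟨m, hmm⟩ : ∃ m, E.card = m := ⟨_, rfl⟩
  rw [hvv] at hv1 hv ⊢
  rw [hmm] at hm1 ⊢
  rcases Nat.lt_or_ge (1 + D * s) v with hlt | hge
  · -- at least one vertex not adjacent to `x`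
    nlinarith
  · have hveq : v = 1 + D * s := le_antisymm hge hv1
    -- all vertices adjacent to `x`
    have hadj : ∀ y ∈ VV E, y ≠ x → ∃ f ∈ E, x ∈ f ∧ y ∈ f := by
      intro y hy hyx
      exact h.adj_of_eq hx (by rw [hvv, hveq, hDx]; simp) hy hyx
    have hDr : s + 3 ≤ D := by
      by_contra hc
      push Not at hc
      have : D * s ≤ (s + 2) * s := Nat.mul_le_mul_right _ (by omega)
      nlinarith
    obtain ⟨a, ha⟩ : ∃ a, D = (s + 1) + a := ⟨D - (s + 1), by omega⟩
    have ha2 : 2 ≤ a := by omega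
    have hcl : ∀ e ∈ E, deg (cls E e) x = a := by
      intro e he
      have h1 := h.hdeg_eq he (c2 e he) hadj
      have h2 := deg_cls_add (E := E) e x
      omega
    have hm2 : m + 2 ≤ (s + 1) * D := by
      by_contra hc
      have hmD : m + 1 = (s + 1) * D := by omega
      -- sum of the class sizes over the hyperedges through `x`
      have hsum : ∑ f ∈ star E x, (cls E f).card = a * m := by
        have h1 : ∀ f ∈ star E x, (cls E f).card = ∑ e ∈ E, if e ∈ cls E f then 1 else 0 := by
          intro f _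
          rw [← Finset.card_filter]
          congr 1
          ext e
          simp only [Finset.mem_filter]
          exact ⟨fun he => ⟨cls_sub f he, he⟩, fun he => he.2⟩
        rw [Finset.sum_congr rfl h1, Finset.sum_comm]
        have h2 : ∀ e ∈ E, (∑ f ∈ star E x, if e ∈ cls E f then 1 else 0) = a := by
          intro e he
          rw [← Finset.card_filter, ← hcl e he]
          unfold deg
          congr 1
          ext f
          simp only [Finset.mem_filter, mem_star]
          constructor
          · rintro ⟨⟨hf, hxf⟩, hef⟩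
            refine ⟨?_, hxf⟩
            rw [cls_eq hef]; exact self_mem hf
          · rintro ⟨hfe, hxf⟩
            refine ⟨⟨cls_sub e hfe, hxf⟩, ?_⟩
            rw [cls_eq hfe]; exact self_mem he
        rw [Finset.sum_congr rfl h2, Finset.sum_const, smul_eq_mul, hmm, mul_comm]
      obtain ⟨f, hf, hfc⟩ : ∃ f ∈ star E x, (cls E f).card < a * (s + 1) := by
        by_contra hcc
        push Not at hcc
        have h1 : (star E x).card * (a * (s + 1)) ≤ ∑ f ∈ star E x, (cls E f).card := by
          rw [← smul_eq_mul, ← Finset.sum_const]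
          exact Finset.sum_le_sum hcc
        rw [hsum, card_star, hDx] at h1
        have h2 : a * (m + 1) ≤ a * m := by rw [hmD]; nlinarith
        nlinarith
      have hfE := (mem_star.1 hf).1
      obtain ⟨C, hC⟩ : ∃ C, cls E f = C := ⟨_, rfl⟩
      have hCE : C ⊆ E := by rw [← hC]; exact cls_sub f
      have hdl : ∀ y, deg (E \ C) y ≤ s + 1 := by
        intro y; rw [← hC]; exact h.hdeg_le hfE (c2 f hfE) y
      have hcard : (E \ C).card + C.card = m := by
        rw [Finset.card_sdiff_add_card_eq_card hCE, hmm]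
      have hcross : ∀ e ∈ C, ∑ y ∈ e, deg (E \ C) y = (E \ C).card := by
        intro e he
        refine h.cross (hCE he) Finset.sdiff_subset (fun g hg => ?_)
        rw [Finset.mem_sdiff] at hg
        refine ⟨fun hh => hg.2 (hh ▸ he), ?_⟩
        rw [← hC] at he hg
        exact cls_cross he hg.1 hg.2
      have hcross' : ∀ e ∈ E \ C, ∑ y ∈ e, deg C y = C.card := by
        intro e he
        rw [Finset.mem_sdiff] at he
        refine h.cross he.1 hCE (fun g hg => ?_)
        refine ⟨fun hh => he.2 (hh ▸ hg), fun hd => ?_⟩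
        rw [← hC] at he hg
        exact cls_cross hg he.1 he.2 hd.symm
      have hfC : f ∈ C := by rw [← hC]; exact self_mem hfE
      rw [hC] at hfc
      have hle : (E \ C).card ≤ (s + 1) * (s + 1) := by
        rw [← hcross f hfC]
        calc ∑ y ∈ f, deg (E \ C) y ≤ ∑ _y ∈ f, (s + 1) := Finset.sum_le_sum fun y _ => hdl y
          _ = (s + 1) * (s + 1) := by rw [Finset.sum_const, h.unif f hfE, smul_eq_mul]
      have hCc : C.card + 1 ≤ a * (s + 1) := hfc
      have hEC : (E \ C).card = (s + 1) * (s + 1) := by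
        apply le_antisymm hle
        have : (s + 1) * D = (s + 1) * (s + 1) + a * (s + 1) := by rw [ha]; ring
        omega
      have hCc' : C.card + 1 = a * (s + 1) := by
        have : (s + 1) * D = (s + 1) * (s + 1) + a * (s + 1) := by rw [ha]; ring
        omega
      have hfull : ∀ e ∈ C, ∀ y ∈ e, deg (E \ C) y = s + 1 := by
        intro e he y hy
        have h1 : ∑ y ∈ e, deg (E \ C) y = ∑ _y ∈ e, (s + 1) := by
          rw [hcross e he, hEC, Finset.sum_const, h.unif e (hCE he), smul_eq_mul]
        exact (Finset.sum_eq_sum_iff_of_le (fun y _ => hdl y)).1 h1 y hy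
      have hadd : ∀ y, deg C y + deg (E \ C) y = deg E y := by
        intro y; rw [← hC]; exact deg_cls_add f y
      have hdC : ∀ y, deg C y ≤ a := by
        intro y
        by_cases hy : y ∈ VV C
        · obtain ⟨e, he, hye⟩ := mem_VV.1 hy
          have h1 := hfull e he y hye
          have h2 := hadd y
          have h3 := hD y (subset_VV (hCE he) hye)
          omega
        · have : deg C y = 0 := by
            unfold deg
            rw [Finset.card_eq_zero, Finset.filter_eq_empty_iff]
            exact fun e he hye => hy (mem_VV.2 ⟨e, he, hye⟩)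
          omega
      have hsub : ∀ e ∈ E \ C, e ⊆ VV C := by
        intro e he y hy
        by_contra hyC
        have h0 : deg C y = 0 := by
          unfold deg
          rw [Finset.card_eq_zero, Finset.filter_eq_empty_iff]
          exact fun e he hye => hyC (mem_VV.2 ⟨e, he, hye⟩)
        have h1 := hcross' e he
        rw [← Finset.add_sum_erase e _ hy, h0, zero_add] at h1
        have h2 : ∑ y ∈ e.erase y, deg C y ≤ ∑ _y ∈ e.erase y, a :=
          Finset.sum_le_sum fun z _ => hdC z
        rw [Finset.sum_const, Finset.card_erase_of_mem hy,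
          h.unif e (Finset.mem_sdiff.1 he).1, smul_eq_mul, h1] at h2
        simp only [Nat.add_sub_cancel] at h2
        nlinarith
      have hVV : VV E = VV C := by
        apply Finset.Subset.antisymm
        · intro y hy
          obtain ⟨e, he, hye⟩ := mem_VV.1 hy
          by_cases heC : e ∈ C
          · exact mem_VV.2 ⟨e, heC, hye⟩
          · exact hsub e (Finset.mem_sdiff.2 ⟨he, heC⟩) hye
        · intro y hy
          obtain ⟨e, he, hye⟩ := mem_VV.1 hy
          exact mem_VV.2 ⟨e, hCE he, hye⟩
      have hfin : ∑ y ∈ VV E, deg (E \ C) y = (s + 1) * (E \ C).card := by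
        rw [sum_deg, Finset.sum_congr rfl (g := fun _ => s + 1)]
        · simp [mul_comm]
        · intro g hg
          rw [Finset.inter_eq_right.2 (subset_VV (Finset.mem_sdiff.1 hg).1),
            h.unif g (Finset.mem_sdiff.1 hg).1]
      have hfin2 : ∑ y ∈ VV E, deg (E \ C) y = v * (s + 1) := by
        rw [Finset.sum_congr rfl (g := fun _ => s + 1)]
        · rw [Finset.sum_const, smul_eq_mul, hvv]
        · intro y hy
          rw [hVV] at hy
          obtain ⟨e, he, hye⟩ := mem_VV.1 hy
          exact hfull e he y hye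
      rw [hfin2, hEC] at hfin
      have : v = (s + 1) * (s + 1) := by
        apply Nat.eq_of_mul_eq_mul_right (show 0 < s + 1 by omega)
        rw [hfin]; ring
      omega
    nlinarith

end Pool.Agent.X72.LinP4
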