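import Pool.Agent.X72.LinP4.Case0

set_option autoImplicit false

namespace Pool.Agent.X72.LinP4

variable {V : Type*} [DecidableEq V] {r : ℕ} {E : Finset (Finset V)}

/-- `E` contains a Steiner system `S(2, r, r²)` (by its numbers of vertices and hyperedges). -/
def HasSteiner (r : ℕ) (E : Finset (Finset V)) : Prop :=
  ∃ W : Finset V, ∃ S ⊆ E, W.card = r * r ∧ S.card = r * r + r ∧ ∀ e ∈ S, e ⊆ W

theorem HasSteiner.mono {F : Finset (Finset V)} (h : HasSteiner r E) (hEF : E ⊆ F) :
    HasSteiner r F := by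
  obtain ⟨W, S, hS, h1, h2, h3⟩ := h
  exact ⟨W, S, hS.trans hEF, h1, h2, h3⟩

theorem steiner_count (r : ℕ) (hr : 1 ≤ r) :
    (r * r + r) * (r * r - r) = (r * r) * (r * r) - r * r := by
  obtain ⟨s, rfl⟩ : ∃ s, r = s + 1 := ⟨r - 1, by omega⟩
  have h1 : (s + 1) * (s + 1) - (s + 1) = (s + 1) * s := by
    rw [show (s + 1) * (s + 1) = (s + 1) * s + (s + 1) by ring]; omega
  rw [h1]
  have h2 : (s + 1) * (s + 1) * ((s + 1) * (s + 1)) =
      ((s + 1) * (s + 1) + (s + 1)) * ((s + 1) * s) + (s + 1) * (s + 1) := by ring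
  rw [h2]; omega

theorem Good.steiner_pairs (h : Good r E) (hr : 3 ≤ r) {W : Finset V} {S : Finset (Finset V)}
    (hS : S ⊆ E) (h1 : W.card = r * r) (h2 : S.card = r * r + r) (h3 : ∀ e ∈ S, e ⊆ W) :
    ∀ x ∈ W, ∀ y ∈ W, x ≠ y → ∃ e ∈ S, x ∈ e ∧ y ∈ e := by
  apply (h.pairs hS h3).2
  rw [h1, h2, steiner_count r (by omega)]

theorem Good.steiner_deg (h : Good r E) (hr : 3 ≤ r) {W : Finset V} {S : Finset (Finset V)}
    (hS : S ⊆ E) (h1 : W.card = r * r) (h2 : S.card = r * r + r) (h3 : ∀ e ∈ S, e ⊆ W)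
    {x : V} (hx : x ∈ W) : deg S x = r + 1 := by
  have hp := h.steiner_pairs hr hS h1 h2 h3
  have hn : nbr S x = W.erase x := by
    ext y
    rw [mem_nbr, Finset.mem_erase]
    constructor
    · rintro ⟨hyx, f, hf, _, hyf⟩; exact ⟨hyx, h3 f hf hyf⟩
    · rintro ⟨hyx, hy⟩
      obtain ⟨e, he, hxe, hye⟩ := hp x hx y hy hyx.symm
      exact ⟨hyx, e, he, hxe, hye⟩
  have hc := (h.mono hS).card_nbr x
  rw [hn, Finset.card_erase_of_mem hx, h1] at hc
  obtain ⟨s, rfl⟩ : ∃ s, r = s + 1 := ⟨r - 1, by omega⟩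
  simp only [Nat.add_sub_cancel] at hc
  have h4 : (s + 1) * (s + 1) - 1 = (s + 1 + 1) * s := by
    rw [show (s + 1) * (s + 1) = (s + 1 + 1) * s + 1 by ring]; omega
  rw [h4] at hc
  exact (Nat.eq_of_mul_eq_mul_right (show 0 < s by omega) hc).symm

/-- No hyperedge meets all hyperedges of a Steiner system. -/
theorem Good.no_transversal (h : Good r E) (hr : 3 ≤ r) {F : Finset (Finset V)} (hF : F ⊆ E)
    (hst : HasSteiner r F) {f : Finset V} (hf : f ∈ E) (hd : ∀ e ∈ F, ¬ Disjoint f e) :
    False := by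
  obtain ⟨W, S, hS, h1, h2, h3⟩ := hst
  have hSE := hS.trans hF
  obtain ⟨w, hw, hwf⟩ : ∃ w ∈ W, w ∉ f := by
    by_contra hc
    push Not at hc
    have := Finset.card_le_card (show W ⊆ f from hc)
    rw [h1, h.unif f hf] at this
    nlinarith
  have hdw := h.steiner_deg hr hSE h1 h2 h3 hw
  have h4 := h.hits_le hf hwf
  have h5 : deg S w ≤ ((star E w).filter (fun g => ¬ Disjoint f g)).card := by
    apply Finset.card_le_card
    intro g hg
    rw [Finset.mem_filter] at hg
    rw [Finset.mem_filter, mem_star]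
    exact ⟨⟨hSE hg.1, hg.2⟩, hd g (hS hg.1)⟩
  omega

theorem card_pos_VV (h : Good r E) (hr : 3 ≤ r) (hE : E.Nonempty) : r ≤ (VV E).card := by
  obtain ⟨e, he⟩ := hE
  rw [← h.unif e he]
  exact Finset.card_le_card (subset_VV he)

theorem Good.card_VV_le (h : Good r E) : (VV E).card ≤ r * E.card := by
  calc (VV E).card ≤ ∑ e ∈ E, (id e).card := Finset.card_biUnion_le
    _ = ∑ _e ∈ E, r := Finset.sum_congr rfl fun e he => h.unif e he
    _ = r * E.card := by rw [Finset.sum_const, smul_eq_mul, mul_comm]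

theorem Good.deg_le_of_univ (h : Good r E) {f : Finset V} (hf : f ∈ E)
    (hu : ∀ g ∈ E, g ≠ f → ¬ Disjoint f g) {y : V} (hy : y ∉ f) : deg E y ≤ r := by
  refine le_trans ?_ (h.hits_le hf hy)
  apply Finset.card_le_card
  intro g hg
  rw [Finset.mem_filter] at hg ⊢
  rw [mem_star]
  exact ⟨hg, hu g hg.1 (fun hh => hy (hh ▸ hg.2))⟩

theorem VV_union (A B : Finset (Finset V)) : VV (A ∪ B) = VV A ∪ VV B := by
  ext y; simp only [mem_VV, Finset.mem_union]
  constructor
  · rintro ⟨e, he | he, hy⟩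
    · exact Or.inl ⟨e, he, hy⟩
    · exact Or.inr ⟨e, he, hy⟩
  · rintro (⟨e, he, hy⟩ | ⟨e, he, hy⟩)
    · exact ⟨e, Or.inl he, hy⟩
    · exact ⟨e, Or.inr he, hy⟩

theorem VV_disjoint {A B : Finset (Finset V)} (h : ∀ a ∈ A, ∀ b ∈ B, Disjoint a b) :
    Disjoint (VV A) (VV B) := by
  rw [Finset.disjoint_left]
  intro y hy hy'
  obtain ⟨a, ha, hya⟩ := mem_VV.1 hy
  obtain ⟨b, hb, hyb⟩ := mem_VV.1 hy'
  exact Finset.disjoint_left.1 (h a ha b hb) hya hyb

theorem VV_mono {A B : Finset (Finset V)} (h : A ⊆ B) : VV A ⊆ VV B := by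
  intro y hy
  obtain ⟨a, ha, hya⟩ := mem_VV.1 hy
  exact mem_VV.2 ⟨a, h ha, hya⟩

/-- Case with a universal hyperedge. -/
theorem Good.case1 (h : Good r E) (hr : 3 ≤ r) {f : Finset V} (hf : f ∈ E)
    (hu : ∀ g ∈ E, g ≠ f → ¬ Disjoint f g) (hv : r * r < (VV E).card)
    (IH : ∀ E' ⊆ E, E'.card < E.card → E'.Nonempty →
      HasSteiner r E' ∨ r * E'.card + r ≤ (r + 1) * (VV E').card) :
    r * E.card + r ≤ (r + 1) * (VV E).card := by
  have hcE : (E.erase f).card + 1 = E.card := Finset.card_erase_add_one hf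
  have hC2 : 2 ≤ (E.erase f).card := by
    by_contra hc
    have h1 := h.card_VV_le
    have h2 : E.card ≤ 2 := by omega
    nlinarith
  have hdiff : ∀ g ∈ E.erase f, g ∈ E ∧ g ≠ f := fun g hg =>
    ⟨Finset.mem_of_mem_erase hg, Finset.ne_of_mem_erase hg⟩
  obtain ⟨A, B, ⟨hA0, hB0, hd, hAB⟩, hF | hF⟩ :=
    split (fun e f : Finset V => ¬ Disjoint e f)
    (fun a b hab hba => hab hba.symm) (E.erase f)
    (fun a ha b hb c hc d hd => h.noP a (hdiff a ha).1 b (hdiff b hb).1 c (hdiff c hc).1
      d (hdiff d hd).1) hC2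
  · have hA : ∀ a ∈ A, a ∈ E ∧ a ≠ f := fun a ha =>
      hdiff a (by rw [← hAB]; exact Finset.mem_union_left _ ha)
    have hB : ∀ a ∈ B, a ∈ E ∧ a ≠ f := fun a ha =>
      hdiff a (by rw [← hAB]; exact Finset.mem_union_right _ ha)
    by_cases hg : ∃ g ∈ E, g ≠ f ∧ ∀ k ∈ E, k ≠ g → ¬ Disjoint g k
    · -- two universal hyperedges
      obtain ⟨g, hgE, hgf, hgu⟩ := hg
      have h1 := h.inter_one hf hgE hgf.symm (hu g hgE hgf)
      obtain ⟨y0, hy0⟩ := Finset.card_eq_one.1 h1
      have hy0V : y0 ∈ VV E := by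
        refine subset_VV hf ?_
        have : y0 ∈ f ∩ g := by rw [hy0]; exact Finset.mem_singleton_self _
        exact (Finset.mem_inter.1 this).1
      have hdeg : ∀ y ∈ (VV E).erase y0, deg E y ≤ r := by
        intro y hy
        by_contra hc
        have h2 : y ∈ f := by
          by_contra hyf; exact hc (h.deg_le_of_univ hf hu hyf)
        have h3 : y ∈ g := by
          by_contra hyg; exact hc (h.deg_le_of_univ hgE hgu hyg)
        have : y ∈ f ∩ g := Finset.mem_inter.2 ⟨h2, h3⟩
        rw [hy0, Finset.mem_singleton] at this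
        exact (Finset.mem_erase.1 hy).1 this
      have hs := h.sum_VV
      rw [← Finset.add_sum_erase _ _ hy0V] at hs
      have h2 : ∑ y ∈ (VV E).erase y0, deg E y ≤ ∑ _y ∈ (VV E).erase y0, r :=
        Finset.sum_le_sum hdeg
      rw [Finset.sum_const, smul_eq_mul, Finset.card_erase_of_mem hy0V] at h2
      have h3 := h.one_add_le hy0V
      obtain ⟨v, hvv⟩ : ∃ v, (VV E).card = v := ⟨_, rfl⟩
      rw [hvv] at h2 h3 hv ⊢
      obtain ⟨w, rfl⟩ : ∃ w, v = w + 1 := ⟨v - 1, by omega⟩
      simp only [Nat.add_sub_cancel] at h2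
      have h4 : deg E y0 ≤ w := by
        have : deg E y0 * 1 ≤ deg E y0 * (r - 1) := Nat.mul_le_mul_left _ (by omega)
        omega
      nlinarith
    · -- exactly one universal hyperedge
      push Not at hg
      have partner : ∀ (A B : Finset (Finset V)), A ∪ B = E.erase f →
          Full (fun e f : Finset V => ¬ Disjoint e f) A B → ∀ a ∈ A,
          ∃ a' ∈ A, Disjoint a a' := by
        intro A B hAB hF a ha
        have haE := hdiff a (by rw [← hAB]; exact Finset.mem_union_left _ ha)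
        obtain ⟨k, hk, hka, hdk⟩ := hg a haE.1 haE.2
        have hkf : k ≠ f := by
          rintro rfl
          exact hu a haE.1 haE.2 hdk.symm
        have hkC : k ∈ E.erase f := Finset.mem_erase.2 ⟨hkf, hk⟩
        rw [← hAB] at hkC
        rcases Finset.mem_union.1 hkC with hkA | hkB
        · exact ⟨k, hkA, hdk⟩
        · exact absurd hdk (hF a ha k hkB)
      have bound : ∀ (A B : Finset (Finset V)), A ∪ B = E.erase f → A.Nonempty →
          Full (fun e f : Finset V => ¬ Disjoint e f) A B → B.card + 1 ≤ r * r := by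
        intro A B hAB hA0 hF
        obtain ⟨a, ha⟩ := hA0
        obtain ⟨a', ha', hdd⟩ := partner A B hAB hF a ha
        have haE := hdiff a (by rw [← hAB]; exact Finset.mem_union_left _ ha)
        have haE' := hdiff a' (by rw [← hAB]; exact Finset.mem_union_left _ ha')
        have hB : ∀ b ∈ B, b ∈ E ∧ b ≠ f := fun b hb =>
          hdiff b (by rw [← hAB]; exact Finset.mem_union_right _ hb)
        have hfB : f ∉ B := fun hfB => (hB f hfB).2 rfl
        rw [← Finset.card_insert_of_notMem hfB]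
        refine h.two_disjoint ?_ haE.1 haE'.1 hdd ?_
        · intro g hg
          rcases Finset.mem_insert.1 hg with rfl | hg
          · exact hf
          · exact (hB g hg).1
        · intro g hg
          rcases Finset.mem_insert.1 hg with rfl | hg
          · exact ⟨fun hh => hu a haE.1 haE.2 hh.symm, fun hh => hu a' haE'.1 haE'.2 hh.symm⟩
          · exact ⟨hF a ha g hg, hF a' ha' g hg⟩
      have b1 := bound A B hAB hA0 hF
      have b2 := bound B A (by rw [Finset.union_comm]; exact hAB) hB0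
        (fun b hb a ha hh => hF a ha b hb hh.symm)
      have hm : (E.erase f).card = A.card + B.card := by
        rw [← hAB, Finset.card_union_of_disjoint hd]
      -- degree sum
      have hs := h.sum_VV
      have hfV : f ⊆ VV E := subset_VV hf
      rw [← Finset.sum_sdiff hfV] at hs
      have h1 : ∑ y ∈ VV E \ f, deg E y ≤ ∑ _y ∈ VV E \ f, r :=
        Finset.sum_le_sum fun y hy => h.deg_le_of_univ hf hu (Finset.mem_sdiff.1 hy).2
      have h2 : ∑ y ∈ f, deg E y = r + (E.erase f).card := by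
        rw [sum_deg, ← Finset.add_sum_erase E _ hf, Finset.inter_self, h.unif f hf,
          Finset.card_eq_sum_ones]
        congr 1
        refine Finset.sum_congr rfl fun g hg => ?_
        exact h.inter_one hf (hdiff g hg).1 (hdiff g hg).2.symm
          (hu g (hdiff g hg).1 (hdiff g hg).2)
      have h3 : (VV E \ f).card + r = (VV E).card := by
        have := Finset.card_sdiff_add_card_eq_card hfV
        rwa [h.unif f hf] at this
      rw [Finset.sum_const, smul_eq_mul] at h1
      obtain ⟨v, hvv⟩ : ∃ v, (VV E).card = v := ⟨_, rfl⟩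
      obtain ⟨u, huu⟩ : ∃ u, (VV E \ f).card = u := ⟨_, rfl⟩
      obtain ⟨m, hmm⟩ : ∃ m, (E.erase f).card = m := ⟨_, rfl⟩
      rw [hvv] at hv h3 ⊢
      rw [huu] at h3 h1
      rw [hmm] at h2 hm hcE
      rw [← hcE] at hs ⊢
      have hm2 : m + 2 ≤ 2 * (r * r) := by omega
      -- r (m+1) ≤ u r + r + m
      have key : r * (m + 1) ≤ u * r + (r + m) := by omega
      by_cases hbig : 2 * (r * (r * r)) ≤ (r + 1) * v
      · have : r * (m + 1) + r ≤ 2 * (r * (r * r)) := by nlinarith
        omega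
      · push Not at hbig
        obtain ⟨s, rfl⟩ : ∃ s, r = s + 3 := ⟨r - 3, by omega⟩
        subst h3
        -- v = u + (s+3); want (s+3)(m+1)+(s+3) ≤ (s+4) v
        by_contra hc
        push Not at hc
        have k1 : (s + 2) * m ≤ (s + 3) * u := by nlinarith
        nlinarith [mul_le_mul_of_nonneg_left k1 (Nat.zero_le (s + 3)),
          mul_lt_mul_of_pos_left hc (show 0 < s + 2 by omega), mul_self_nonneg (s : ℤ)]
  · -- the rest splits into two unrelated parts
    have hF' : ∀ a ∈ A, ∀ b ∈ B, Disjoint a b := fun a ha b hb => not_not.1 (hF a ha b hb)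
    have hA : ∀ a ∈ A, a ∈ E ∧ a ≠ f := fun a ha =>
      hdiff a (by rw [← hAB]; exact Finset.mem_union_left _ ha)
    have hB : ∀ a ∈ B, a ∈ E ∧ a ≠ f := fun a ha =>
      hdiff a (by rw [← hAB]; exact Finset.mem_union_right _ ha)
    have hm : (E.erase f).card = A.card + B.card := by
      rw [← hAB, Finset.card_union_of_disjoint hd]
    have hAE : A ⊆ E := fun a ha => (hA a ha).1
    have hBE : B ⊆ E := fun a ha => (hB a ha).1
    have i1 := IH A hAE (by have := Finset.card_pos.2 hB0; omega) hA0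
    have i2 := IH B hBE (by have := Finset.card_pos.2 hA0; omega) hB0
    have i1' : r * A.card + r ≤ (r + 1) * (VV A).card := by
      rcases i1 with hst | h1
      · exact (h.no_transversal hr hAE hst hf (fun e he => hu e (hA e he).1 (hA e he).2)).elim
      · exact h1
    have i2' : r * B.card + r ≤ (r + 1) * (VV B).card := by
      rcases i2 with hst | h1
      · exact (h.no_transversal hr hBE hst hf (fun e he => hu e (hB e he).1 (hB e he).2)).elim
      · exact h1
    have hVV : (VV A).card + (VV B).card ≤ (VV E).card := by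
      rw [← Finset.card_union_of_disjoint (VV_disjoint hF'), ← VV_union]
      exact Finset.card_le_card (VV_mono (Finset.union_subset hAE hBE))
    have : (r + 1) * ((VV A).card + (VV B).card) ≤ (r + 1) * (VV E).card :=
      Nat.mul_le_mul_left _ hVV
    nlinarith

end Pool.Agent.X72.LinP4
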