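import Pool.Agent.X72.LinP4.Basic

set_option autoImplicit false

namespace Pool.Agent.X72.LinP4

variable {V : Type*} [DecidableEq V] {r : ℕ} {E : Finset (Finset V)}

/-- one step between disjoint hyperedges -/
def Rel (E : Finset (Finset V)) (a b : Finset V) : Prop := a ∈ E ∧ b ∈ E ∧ Disjoint a b

open Classical in
/-- the class of `e`: hyperedges that can be reached by steps between disjoint hyperedges -/
noncomputable def cls (E : Finset (Finset V)) (e : Finset V) : Finset (Finset V) :=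
  E.filter (fun f => Relation.ReflTransGen (Rel E) e f)

theorem mem_cls {e f : Finset V} :
    f ∈ cls E e ↔ f ∈ E ∧ Relation.ReflTransGen (Rel E) e f := by
  simp [cls]

theorem cls_sub (e : Finset V) : cls E e ⊆ E := fun _ hf => (mem_cls.1 hf).1

theorem self_mem {e : Finset V} (he : e ∈ E) : e ∈ cls E e := mem_cls.2 ⟨he, .refl⟩

theorem cls_closed {e f g : Finset V} (hg : g ∈ cls E e) (hf : f ∈ E) (hd : Disjoint g f) :
    f ∈ cls E e :=
  mem_cls.2 ⟨hf, (mem_cls.1 hg).2.tail ⟨(mem_cls.1 hg).1, hf, hd⟩⟩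

theorem cls_cross {e f g : Finset V} (hg : g ∈ cls E e) (hf : f ∈ E) (hfc : f ∉ cls E e) :
    ¬ Disjoint g f := fun hd => hfc (cls_closed hg hf hd)

theorem rtg_symm {e f : Finset V} (h : Relation.ReflTransGen (Rel E) e f) :
    Relation.ReflTransGen (Rel E) f e := by
  induction h with
  | refl => exact .refl
  | tail _ h2 ih => exact .head ⟨h2.2.1, h2.1, h2.2.2.symm⟩ ih

theorem cls_eq {e f : Finset V} (hf : f ∈ cls E e) : cls E f = cls E e := by
  ext g
  rw [mem_cls, mem_cls]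
  have h1 := (mem_cls.1 hf).2
  exact ⟨fun h => ⟨h.1, h1.trans h.2⟩, fun h => ⟨h.1, (rtg_symm h1).trans h.2⟩⟩

theorem not_full_aux {e : Finset V} {A B : Finset (Finset V)} (hAB : Parts (cls E e) A B)
    (hF : Full (fun e f : Finset V => ¬ Disjoint e f) A B) (heA : e ∈ A) : False := by
  obtain ⟨hA, hB, hd, hu⟩ := hAB
  have key : ∀ f, Relation.ReflTransGen (Rel E) e f → f ∈ A := by
    intro f hf
    induction hf with
    | refl => exact heA
    | @tail b c _ h2 ih =>
      have hb : b ∈ cls E e := by rw [← hu]; exact Finset.mem_union_left _ ih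
      have hc : c ∈ cls E e := cls_closed hb h2.2.1 h2.2.2
      rw [← hu] at hc
      rcases Finset.mem_union.1 hc with hc | hc
      · exact hc
      · exact absurd h2.2.2 (hF b ih c hc)
  obtain ⟨b, hb⟩ := hB
  have hb' : b ∈ cls E e := by rw [← hu]; exact Finset.mem_union_right _ hb
  exact Finset.disjoint_left.1 hd (key b (mem_cls.1 hb').2) hb

theorem not_full {e : Finset V} (he : e ∈ E) {A B : Finset (Finset V)}
    (hAB : Parts (cls E e) A B)
    (hF : Full (fun e f : Finset V => ¬ Disjoint e f) A B) : False := by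
  have h1 : e ∈ A ∪ B := by rw [hAB.2.2.2]; exact self_mem he
  rcases Finset.mem_union.1 h1 with h | h
  · exact not_full_aux hAB hF h
  · exact not_full_aux hAB.symm (fun b hb a ha hd => hF a ha b hb hd.symm) h

theorem Good.cls_split (h : Good r E) {e : Finset V} (he : e ∈ E) (h2 : 2 ≤ (cls E e).card) :
    ∃ A B, Parts (cls E e) A B ∧ ∀ a ∈ A, ∀ b ∈ B, Disjoint a b := by
  obtain ⟨A, B, hAB, hF | hF⟩ := split (fun e f : Finset V => ¬ Disjoint e f)
    (fun a b hab hba => hab hba.symm) (cls E e)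
    (fun a ha b hb c hc d hd => h.noP a (cls_sub e ha) b (cls_sub e hb) c (cls_sub e hc)
      d (cls_sub e hd)) h2
  · exact (not_full he hAB hF).elim
  · exact ⟨A, B, hAB, fun a ha b hb => not_not.1 (hF a ha b hb)⟩

theorem Good.exists_avoid (h : Good r E) {e : Finset V} (he : e ∈ E)
    (h2 : 2 ≤ (cls E e).card) (x : V) :
    ∃ b ∈ cls E e, x ∉ b ∧ ∀ f ∈ cls E e, x ∈ f → Disjoint b f := by
  obtain ⟨A, B, ⟨⟨a0, ha0⟩, ⟨b0, hb0⟩, hd, hu⟩, hF⟩ := h.cls_split he h2
  by_cases hx : ∃ a ∈ A, x ∈ a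
  · obtain ⟨a, ha, hxa⟩ := hx
    refine ⟨b0, by rw [← hu]; exact Finset.mem_union_right _ hb0, fun hxb =>
      Finset.disjoint_left.1 (hF a ha b0 hb0) hxa hxb, fun f hf hxf => ?_⟩
    rw [← hu] at hf
    rcases Finset.mem_union.1 hf with hf | hf
    · exact (hF f hf b0 hb0).symm
    · exact (Finset.disjoint_left.1 (hF a ha f hf) hxa hxf).elim
  · push Not at hx
    refine ⟨a0, by rw [← hu]; exact Finset.mem_union_left _ ha0, hx a0 ha0,
      fun f hf hxf => ?_⟩
    rw [← hu] at hf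
    rcases Finset.mem_union.1 hf with hf | hf
    · exact (hx f hf hxf).elim
    · exact hF a0 ha0 f hf

theorem filter_sdiff_cls {e b : Finset V} {x : V} (hb : b ∈ cls E e)
    (hd : ∀ f ∈ cls E e, x ∈ f → Disjoint b f) :
    (E \ cls E e).filter (fun f => x ∈ f) = (star E x).filter (fun f => ¬ Disjoint b f) := by
  ext f
  simp only [Finset.mem_filter, Finset.mem_sdiff, mem_star]
  constructor
  · rintro ⟨⟨hf, hfc⟩, hxf⟩
    exact ⟨⟨hf, hxf⟩, cls_cross hb hf hfc⟩
  · rintro ⟨⟨hf, hxf⟩, hfd⟩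
    exact ⟨⟨hf, fun hfc => hfd (hd f hfc hxf)⟩, hxf⟩

theorem Good.hdeg_le (h : Good r E) {e : Finset V} (he : e ∈ E) (h2 : 2 ≤ (cls E e).card)
    (x : V) : deg (E \ cls E e) x ≤ r := by
  obtain ⟨b, hb, hxb, hd⟩ := h.exists_avoid he h2 x
  unfold deg
  rw [filter_sdiff_cls hb hd]
  exact h.hits_le (cls_sub e hb) hxb

theorem Good.hdeg_eq (h : Good r E) {e : Finset V} (he : e ∈ E) (h2 : 2 ≤ (cls E e).card)
    {x : V} (hadj : ∀ y ∈ VV E, y ≠ x → ∃ f ∈ E, x ∈ f ∧ y ∈ f) :
    deg (E \ cls E e) x = r := by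
  obtain ⟨b, hb, hxb, hd⟩ := h.exists_avoid he h2 x
  unfold deg
  rw [filter_sdiff_cls hb hd]
  exact h.hits_eq_r (cls_sub e hb) hxb
    (fun y hy => hadj y (subset_VV (cls_sub e hb) hy) (fun hh => hxb (hh ▸ hy)))

theorem deg_cls_add (e : Finset V) (x : V) :
    deg (cls E e) x + deg (E \ cls E e) x = deg E x := by
  rw [← deg_union Finset.disjoint_sdiff, Finset.union_sdiff_of_subset (cls_sub e)]

theorem deg_mono {A B : Finset (Finset V)} (h : A ⊆ B) (y : V) : deg A y ≤ deg B y :=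
  Finset.card_le_card (Finset.filter_subset_filter _ h)

theorem sum_flags (S : Finset (Finset V)) (W : Finset V) (hW : ∀ e ∈ S, e ⊆ W) (g : V → ℤ) :
    ∑ e ∈ S, ∑ y ∈ e, g y = ∑ y ∈ W, (deg S y : ℤ) * g y := by
  have h1 : ∀ e ∈ S, ∑ y ∈ e, g y = ∑ y ∈ W, if y ∈ e then g y else 0 := by
    intro e he
    rw [← Finset.sum_filter]
    congr 1
    ext y
    simp only [Finset.mem_filter]
    exact ⟨fun hy => ⟨hW e he hy, hy⟩, fun hy => hy.2⟩
  rw [Finset.sum_congr rfl h1, Finset.sum_comm]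
  refine Finset.sum_congr rfl fun y _ => ?_
  rw [← Finset.sum_filter, Finset.sum_const, nsmul_eq_mul]
  rfl

end Pool.Agent.X72.LinP4
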