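import Mathlib

/-!
# Linear hypergraphs without a linear path with four edges: definitions

A hypergraph on the vertex set `V` is given by its finite set `E : Finset (Finset V)` of
hyperedges.
-/

set_option autoImplicit false

namespace Pool.Agent.X72.LinP4

variable {V : Type*} [DecidableEq V]

/-- Every hyperedge has exactly `r` vertices. -/
def IsUniform (r : ℕ) (E : Finset (Finset V)) : Prop := ∀ e ∈ E, e.card = r

/-- Any two distinct hyperedges share at most one vertex. -/
def IsLinear (E : Finset (Finset V)) : Prop := ∀ e ∈ E, ∀ f ∈ E, e ≠ f → (e ∩ f).card ≤ 1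

/-- The hypergraph contains the expansion of the path with four edges: hyperedges
`e₁, e₂, e₃, e₄` such that consecutive ones share exactly one vertex and non-consecutive ones are
disjoint. -/
def ContainsP4 (E : Finset (Finset V)) : Prop :=
  ∃ e₁ ∈ E, ∃ e₂ ∈ E, ∃ e₃ ∈ E, ∃ e₄ ∈ E,
    (e₁ ∩ e₂).card = 1 ∧ (e₂ ∩ e₃).card = 1 ∧ (e₃ ∩ e₄).card = 1 ∧
      Disjoint e₁ e₃ ∧ Disjoint e₁ e₄ ∧ Disjoint e₂ e₄

/-- The hyperedges of `E` inside the set `B` form a Steiner system `S(2, r, r²)` on `B`:
`B` has `r²` elements and every pair of elements of `B` lies in exactly one hyperedge `e ⊆ B`. -/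
def IsSteinerBlock (r : ℕ) (E : Finset (Finset V)) (B : Finset V) : Prop :=
  B.card = r ^ 2 ∧ ∀ x ∈ B, ∀ y ∈ B, x ≠ y → ∃! e, e ∈ E ∧ e ⊆ B ∧ x ∈ e ∧ y ∈ e

/-- The whole vertex set is partitioned into blocks of size `r²`, each spanning a copy of
`S(2, r, r²)`, and there are no other hyperedges. -/
def IsSteinerUnion [Fintype V] (r : ℕ) (E : Finset (Finset V)) : Prop :=
  ∃ P : Finpartition (Finset.univ : Finset V),
    (∀ B ∈ P.parts, IsSteinerBlock r E B) ∧ ∀ e ∈ E, ∃ B ∈ P.parts, e ⊆ B

end Pool.Agent.X72.LinP4
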