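import Pool.Agent.X72.LinP4.Case1

set_option autoImplicit false

namespace Pool.Agent.X72.LinP4

variable {V : Type*} [DecidableEq V] {r : ℕ} {E : Finset (Finset V)}

theorem claim (hr : 3 ≤ r) : ∀ n, ∀ E : Finset (Finset V), E.card ≤ n → E.Nonempty → Good r E →
    HasSteiner r E ∨ r * E.card + r ≤ (r + 1) * (VV E).card := by
  intro n
  induction n with
  | zero =>
    intro E hE hne _
    have := Finset.card_pos.2 hne
    omega
  | succ n ih =>
    intro E hE hne h
    have hV := card_pos_VV h hr hne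
    have hp := (h.pairs (Finset.Subset.refl E) (W := VV E) (fun e he => subset_VV he)).1
    rcases lt_trichotomy (VV E).card (r * r) with hlt | heq | hgt
    · right
      obtain ⟨v, hv⟩ : ∃ v, (VV E).card = v := ⟨_, rfl⟩
      obtain ⟨m, hm⟩ : ∃ m, E.card = m := ⟨_, rfl⟩
      rw [hv] at hV hp hlt ⊢
      rw [hm] at hp ⊢
      obtain ⟨s, rfl⟩ : ∃ s, r = s + 1 := ⟨r - 1, by omega⟩
      have h1 : (s + 1) * (s + 1) - (s + 1) = (s + 1) * s := by
        rw [show (s + 1) * (s + 1) = (s + 1) * s + (s + 1) by ring]; omega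
      obtain ⟨w, rfl⟩ : ∃ w, v = w + 1 := ⟨v - 1, by omega⟩
      have h2 : (w + 1) * (w + 1) - (w + 1) = (w + 1) * w := by
        rw [show (w + 1) * (w + 1) = (w + 1) * w + (w + 1) by ring]; omega
      rw [h1, h2] at hp
      -- m (s+1) s ≤ (w+1) w ; w + 1 < (s+1)^2
      have h3 : w * (w + 2) ≤ w * ((s + 1) * (s + 1)) := Nat.mul_le_mul_left _ (by omega)
      by_contra hc
      push Not at hc
      have h4 := mul_lt_mul_of_pos_left hc (show 0 < s by omega)
      nlinarith
    · by_cases hm : E.card = r * r + r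
      · left
        exact ⟨VV E, E, Finset.Subset.refl _, heq, hm, fun e he => subset_VV he⟩
      · right
        have h1 : E.card ≤ r * r + r := by
          rw [heq, ← steiner_count r (by omega)] at hp
          refine Nat.le_of_mul_le_mul_right hp ?_
          have : r * 1 < r * r := Nat.mul_lt_mul_of_pos_left (by omega) (by omega)
          omega
        have h2 : E.card + 1 ≤ r * r + r := by omega
        rw [heq]
        nlinarith
    · have hcard2 : 2 ≤ E.card := by
        by_contra hc
        have h1 := h.card_VV_le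
        have h2 : E.card ≤ 1 := by omega
        nlinarith
      by_cases hu : ∃ f ∈ E, ∀ g ∈ E, g ≠ f → ¬ Disjoint f g
      · right
        obtain ⟨f, hf, hu⟩ := hu
        exact h.case1 hr hf hu hgt
          (fun E' hE' hlt hne' => ih E' (by omega) hne' (h.mono hE'))
      · push Not at hu
        obtain ⟨A, B, hAB, hF | hF⟩ := split (fun e f : Finset V => ¬ Disjoint e f)
          (fun a b hab hba => hab hba.symm) E h.noP hcard2
        · right
          exact h.case0 hr hAB hF (fun e he => by
            obtain ⟨g, hg, hge, hd⟩ := hu e he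
            exact ⟨g, hg, hge, hd⟩) hgt
        · obtain ⟨hA0, hB0, hd, hABu⟩ := hAB
          have hF' : ∀ a ∈ A, ∀ b ∈ B, Disjoint a b :=
            fun a ha b hb => not_not.1 (hF a ha b hb)
          have hAE : A ⊆ E := by rw [← hABu]; exact Finset.subset_union_left
          have hBE : B ⊆ E := by rw [← hABu]; exact Finset.subset_union_right
          have hm : E.card = A.card + B.card := by
            rw [← hABu, Finset.card_union_of_disjoint hd]
          have pA := Finset.card_pos.2 hA0
          have pB := Finset.card_pos.2 hB0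
          rcases ih A (by omega) hA0 (h.mono hAE) with h1 | h1
          · exact Or.inl (h1.mono hAE)
          rcases ih B (by omega) hB0 (h.mono hBE) with h2 | h2
          · exact Or.inl (h2.mono hBE)
          right
          have hVV : (VV A).card + (VV B).card = (VV E).card := by
            rw [← Finset.card_union_of_disjoint (VV_disjoint hF'), ← VV_union, hABu]
          rw [← hVV, hm]
          nlinarith

/-- A Steiner system in `E` is separated from the rest of `E`. -/
theorem Good.separated (h : Good r E) (hr : 3 ≤ r) {W : Finset V} {S : Finset (Finset V)}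
    (hS : S ⊆ E) (h1 : W.card = r * r) (h2 : S.card = r * r + r) (h3 : ∀ e ∈ S, e ⊆ W)
    {e : Finset V} (he : e ∈ E) (heS : e ∉ S) : Disjoint e W := by
  rw [Finset.disjoint_left]
  intro w hwe hwW
  have hp := h.steiner_pairs hr hS h1 h2 h3
  have honly : ∀ y, y ∈ e → y ∈ W → y = w := by
    intro y hye hyW
    by_contra hne
    obtain ⟨s, hs, hys, hws⟩ := hp y hyW w hwW hne
    exact heS ((h.eq_of_two he (hS hs) hne hye hwe hys hws) ▸ hs)
  have hdw := h.steiner_deg hr hS h1 h2 h3 hwW
  obtain ⟨s1, hs1⟩ := Finset.card_pos.1 (show 0 < deg S w by omega)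
  rw [Finset.mem_filter] at hs1
  obtain ⟨z, hzW, hzs⟩ : ∃ z ∈ W, z ∉ s1 := by
    by_contra hc
    push Not at hc
    have := Finset.card_le_card (show W ⊆ s1 from hc)
    rw [h1, h.unif s1 (hS hs1.1)] at this
    nlinarith
  have hdz := h.steiner_deg hr hS h1 h2 h3 hzW
  obtain ⟨s3, hs3, hzs3, hd3⟩ : ∃ s3 ∈ S, z ∈ s3 ∧ Disjoint s1 s3 := by
    by_contra hc
    push Not at hc
    have h4 := h.hits_le (hS hs1.1) hzs
    have h5 : deg S z ≤ ((star E z).filter (fun g => ¬ Disjoint s1 g)).card := by
      apply Finset.card_le_card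
      intro g hg
      rw [Finset.mem_filter] at hg
      rw [Finset.mem_filter, mem_star]
      exact ⟨⟨hS hg.1, hg.2⟩, hc g hg.1 hg.2⟩
    omega
  obtain ⟨u, hu, huw⟩ : ∃ u ∈ s1, u ≠ w := by
    have h4 : 1 < s1.card := by rw [h.unif s1 (hS hs1.1)]; omega
    exact Finset.exists_mem_ne h4 w
  have huz : u ≠ z := fun hh => hzs (hh ▸ hu)
  obtain ⟨s2, hs2, hus2, hzs2⟩ := hp u (h3 s1 hs1.1 hu) z hzW huz
  have hw2 : w ∉ s2 := by
    intro hw2
    have := h.eq_of_two (hS hs1.1) (hS hs2) huw hu hs1.2 hus2 hw2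
    exact hzs (this ▸ hzs2)
  refine h.noP e he s1 (hS hs1.1) s2 (hS hs2) s3 (hS hs3) ?_ ?_ ?_ ?_ ?_ ?_
  · exact Finset.not_disjoint_iff.2 ⟨w, hwe, hs1.2⟩
  · exact Finset.not_disjoint_iff.2 ⟨u, hu, hus2⟩
  · exact Finset.not_disjoint_iff.2 ⟨z, hzs2, hzs3⟩
  · rw [not_not, Finset.disjoint_left]
    intro y hye hy2
    exact hw2 (honly y hye (h3 s2 hs2 hy2) ▸ hy2)
  · rw [not_not, Finset.disjoint_left]
    intro y hye hy3
    exact Finset.disjoint_left.1 hd3 hs1.2 (honly y hye (h3 s3 hs3 hy3) ▸ hy3)
  · rw [not_not]; exact hd3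

theorem Good.block (h : Good r E) (hr : 3 ≤ r) {W : Finset V} {S : Finset (Finset V)}
    (hS : S ⊆ E) (h1 : W.card = r * r) (h2 : S.card = r * r + r) (h3 : ∀ e ∈ S, e ⊆ W) :
    IsSteinerBlock r E W := by
  refine ⟨by rw [h1, sq], fun x hx y hy hxy => ?_⟩
  obtain ⟨e, he, hxe, hye⟩ := h.steiner_pairs hr hS h1 h2 h3 x hx y hy hxy
  refine ⟨e, ⟨hS he, h3 e he, hxe, hye⟩, ?_⟩
  rintro f ⟨hf, _, hxf, hyf⟩
  exact h.eq_of_two hf (hS he) hxy hxf hyf hxe hye

theorem Good.block_mono (h : Good r E) {F : Finset (Finset V)} (hF : F ⊆ E) {W : Finset V}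
    (hW : IsSteinerBlock r F W) : IsSteinerBlock r E W := by
  refine ⟨hW.1, fun x hx y hy hxy => ?_⟩
  obtain ⟨e, ⟨he, heW, hxe, hye⟩, _⟩ := hW.2 x hx y hy hxy
  refine ⟨e, ⟨hF he, heW, hxe, hye⟩, ?_⟩
  rintro f ⟨hf, _, hxf, hyf⟩
  exact h.eq_of_two hf (hF he) hxy hxf hyf hxe hye

theorem main_ineq (hr : 3 ≤ r) : ∀ n, ∀ E : Finset (Finset V), E.card ≤ n → Good r E →
    r * E.card ≤ (r + 1) * (VV E).card ∧ (r * E.card = (r + 1) * (VV E).card →
      ∃ P : Finset (Finset V), (∀ B ∈ P, IsSteinerBlock r E B) ∧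
        (P : Set (Finset V)).PairwiseDisjoint id ∧ P.biUnion id = VV E ∧
        ∀ e ∈ E, ∃ B ∈ P, e ⊆ B) := by
  intro n
  induction n with
  | zero =>
    intro E hE _
    have : E = ∅ := Finset.card_eq_zero.1 (by omega)
    subst this
    refine ⟨by simp, fun _ => ⟨∅, by simp, by simp, by simp [VV], by simp⟩⟩
  | succ n ih =>
    intro E hE h
    rcases E.eq_empty_or_nonempty with rfl | hne
    · refine ⟨by simp, fun _ => ⟨∅, by simp, by simp, by simp [VV], by simp⟩⟩
    rcases claim hr _ E le_rfl hne h with hst | hineq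
    · obtain ⟨W, S, hS, h1, h2, h3⟩ := hst
      have hsep := fun e he heS => h.separated hr hS h1 h2 h3 (e := e) he heS
      have hcard : (E \ S).card + S.card = E.card := Finset.card_sdiff_add_card_eq_card hS
      have hVS : VV S = W := by
        ext y
        rw [mem_VV]
        constructor
        · rintro ⟨e, he, hy⟩; exact h3 e he hy
        · intro hy
          have hd := h.steiner_deg hr hS h1 h2 h3 hy
          obtain ⟨f, hf⟩ := Finset.card_pos.1 (show 0 < deg S y by omega)
          rw [Finset.mem_filter] at hf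
          exact ⟨f, hf.1, hf.2⟩
      have hdis : Disjoint (VV (E \ S)) W := by
        rw [Finset.disjoint_left]
        intro y hy hyW
        obtain ⟨e, he, hye⟩ := mem_VV.1 hy
        rw [Finset.mem_sdiff] at he
        exact Finset.disjoint_left.1 (hsep e he.1 he.2) hye hyW
      have hVE : VV E = VV (E \ S) ∪ W := by
        rw [← hVS, ← VV_union, Finset.sdiff_union_of_subset hS]
      have hVc : (VV E).card = (VV (E \ S)).card + r * r := by
        rw [hVE, Finset.card_union_of_disjoint hdis, h1]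
      obtain ⟨i1, i2⟩ := ih (E \ S) (by omega) (h.mono Finset.sdiff_subset)
      constructor
      · rw [← hcard, hVc, h2]; nlinarith
      · intro heq
        obtain ⟨P, hP1, hP2, hP3, hP4⟩ := i2 (by rw [← hcard, hVc, h2] at heq; nlinarith)
        have hPW : ∀ B ∈ P, Disjoint B W := by
          intro B hB
          refine Finset.disjoint_of_subset_left ?_ hdis
          rw [← hP3]
          exact Finset.subset_biUnion_of_mem id hB
        refine ⟨insert W P, ?_, ?_, ?_, ?_⟩
        · intro B hB
          rcases Finset.mem_insert.1 hB with rfl | hB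
          · exact h.block hr hS h1 h2 h3
          · exact h.block_mono Finset.sdiff_subset (hP1 B hB)
        · rw [Finset.coe_insert]
          refine hP2.insert (fun B hB _ => ?_)
          exact (hPW B hB).symm
        · rw [Finset.biUnion_insert, hP3, hVE, Finset.union_comm]; rfl
        · intro e he
          by_cases heS : e ∈ S
          · exact ⟨W, Finset.mem_insert_self _ _, h3 e heS⟩
          · obtain ⟨B, hB, heB⟩ := hP4 e (Finset.mem_sdiff.2 ⟨he, heS⟩)
            exact ⟨B, Finset.mem_insert_of_mem hB, heB⟩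
    · exact ⟨by omega, fun heq => by omega⟩

/-- number of hyperedges inside a Steiner block -/
theorem Good.block_card (h : Good r E) (hr : 3 ≤ r) {B : Finset V}
    (hB : IsSteinerBlock r E B) : (E.filter (fun e => e ⊆ B)).card = r * r + r := by
  have hc : ((E.filter (fun e => e ⊆ B)).biUnion Finset.offDiag).card =
      (E.filter (fun e => e ⊆ B)).card * (r * r - r) := by
    rw [Finset.card_biUnion]
    · rw [Finset.sum_congr rfl (g := fun _ => r * r - r)]
      · rw [Finset.sum_const, smul_eq_mul]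
      · intro f hf
        rw [Finset.offDiag_card, h.unif f (Finset.mem_filter.1 hf).1]
    · intro a ha b hb hab
      show Disjoint _ _
      rw [Finset.disjoint_left]
      rintro ⟨x, y⟩ hy hy'
      rw [Finset.mem_offDiag] at hy hy'
      exact hab (h.eq_of_two (Finset.mem_filter.1 ha).1 (Finset.mem_filter.1 hb).1
        hy.2.2 hy.1 hy.2.1 hy'.1 hy'.2.1)
  have he : (E.filter (fun e => e ⊆ B)).biUnion Finset.offDiag = B.offDiag := by
    ext ⟨x, y⟩
    rw [Finset.mem_biUnion, Finset.mem_offDiag]
    constructor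
    · rintro ⟨e, he, hxy⟩
      rw [Finset.mem_filter] at he
      rw [Finset.mem_offDiag] at hxy
      exact ⟨he.2 hxy.1, he.2 hxy.2.1, hxy.2.2⟩
    · rintro ⟨hx, hy, hxy⟩
      obtain ⟨e, ⟨he, heB, hxe, hye⟩, _⟩ := hB.2 x hx y hy hxy
      exact ⟨e, Finset.mem_filter.2 ⟨he, heB⟩, Finset.mem_offDiag.2 ⟨hxe, hye, hxy⟩⟩
  rw [he, Finset.offDiag_card, hB.1, sq, ← steiner_count r (by omega)] at hc
  refine (Nat.eq_of_mul_eq_mul_right ?_ hc).symm
  have : r * 1 < r * r := Nat.mul_lt_mul_of_pos_left (by omega) (by omega)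
  omega

theorem good_of (hr : 3 ≤ r) (h1 : IsUniform r E) (h2 : IsLinear E) (h3 : ¬ ContainsP4 E) :
    Good r E := by
  refine ⟨h1, h2, ?_⟩
  intro a ha b hb c hc d hd hab hbc hcd hac had hbd
  rw [not_not] at hac had hbd
  have one : ∀ e ∈ E, ∀ f ∈ E, e ≠ f → ¬ Disjoint e f → (e ∩ f).card = 1 := by
    intro e he f hf hne hef
    have p1 := h2 e he f hf hne
    have p2 : 0 < (e ∩ f).card := Finset.card_pos.2 (Finset.not_disjoint_iff_nonempty_inter.1 hef)
    omega
  apply h3
  refine ⟨a, ha, b, hb, c, hc, d, hd, one a ha b hb ?_ hab, one b hb c hc ?_ hbc,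
    one c hc d hd ?_ hcd, hac, had, hbd⟩
  · rintro rfl; exact hbc hac
  · rintro rfl; exact hab hac
  · rintro rfl; exact hbc hbd

/-- Main theorem. -/
theorem main [Fintype V] (hr : 3 ≤ r) (h1 : IsUniform r E) (h2 : IsLinear E)
    (h3 : ¬ ContainsP4 E) :
    r * E.card ≤ (r + 1) * Fintype.card V ∧
      (r * E.card = (r + 1) * Fintype.card V ↔ IsSteinerUnion r E) := by
  have h := good_of hr h1 h2 h3
  obtain ⟨m1, m2⟩ := main_ineq hr _ E le_rfl h
  have hle : (VV E).card ≤ Fintype.card V := Finset.card_le_univ _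
  have hle' : (r + 1) * (VV E).card ≤ (r + 1) * Fintype.card V := Nat.mul_le_mul_left _ hle
  refine ⟨m1.trans hle', ?_, ?_⟩
  · intro heq
    have hVc : (VV E).card = Fintype.card V := by
      apply le_antisymm hle
      have : (r + 1) * Fintype.card V ≤ (r + 1) * (VV E).card := by omega
      exact Nat.le_of_mul_le_mul_left this (by omega)
    have hVu : VV E = Finset.univ := by
      rw [← Finset.card_eq_iff_eq_univ]; exact hVc
    obtain ⟨P, hP1, hP2, hP3, hP4⟩ := m2 (by rw [hVc]; exact heq)
    have hemp : (∅ : Finset V) ∉ P := by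
      intro hh
      have := (hP1 ∅ hh).1
      rw [Finset.card_empty] at this
      have : 0 < r ^ 2 := by positivity
      omega
    refine ⟨⟨P, ?_, ?_, hemp⟩, hP1, hP4⟩
    · rw [Finset.supIndep_iff_pairwiseDisjoint]
      exact hP2
    · rw [Finset.sup_eq_biUnion, hP3, hVu]
  · rintro ⟨P, hP1, hP2⟩
    have hn : Fintype.card V = P.parts.card * (r * r) := by
      rw [← Finset.card_univ, ← P.sum_card_parts, Finset.sum_congr rfl (g := fun _ => r * r)]
      · rw [Finset.sum_const, smul_eq_mul]
      · intro B hB; rw [(hP1 B hB).1, sq]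
    have hE : E = P.parts.biUnion (fun B => E.filter (fun e => e ⊆ B)) := by
      ext e
      rw [Finset.mem_biUnion]
      constructor
      · intro he
        obtain ⟨B, hB, heB⟩ := hP2 e he
        exact ⟨B, hB, Finset.mem_filter.2 ⟨he, heB⟩⟩
      · rintro ⟨B, _, he⟩
        exact (Finset.mem_filter.1 he).1
    have hEc : E.card = P.parts.card * (r * r + r) := by
      rw [hE, Finset.card_biUnion, Finset.sum_congr rfl (g := fun _ => r * r + r)]
      · rw [Finset.sum_const, smul_eq_mul]
      · intro B hB; exact h.block_card hr (hP1 B hB)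
      · intro A hA B hB hAB
        show Disjoint _ _
        rw [Finset.disjoint_left]
        intro e he he'
        rw [Finset.mem_filter] at he he'
        have hne : e.Nonempty := Finset.card_pos.1 (by rw [h1 e he.1]; omega)
        obtain ⟨y, hy⟩ := hne
        exact Finset.disjoint_left.1 (P.disjoint hA hB hAB) (he.2 hy) (he'.2 hy)
    rw [hn, hEc]; ring

end Pool.Agent.X72.LinP4
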